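import Pool.Agent.helper5.DH.Spec
import Pool.Agent.helper62.HY.HDI
import Pool.Agent.helper25.HY.MOB

set_option autoImplicit false

open Complex Metric Set Filter Topology MeasureTheory
open Pool.Agent.helper98.ILF Pool.Agent.helper16.Multibrot
open HY (UD T S hd UN RM VV SG Orb fz)

noncomputable section

namespace DH

theorem AFX_re (w : ℂ) (a : ℝ) (ha0 : 0 ≤ a) (ha1 : a < 1) (hw : ‖w‖ ≤ a) :
    (1 - a) / (1 + a) ^ 2 ≤ ((1 - w)⁻¹).re := by
  have hre : w.re ≤ a := (Complex.re_le_norm w).trans hw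
  have h1 : 0 < 1 - w.re := by linarith
  have hne : (1 - w) ≠ 0 := by
    intro h
    have := congrArg Complex.re h
    simp at this
    linarith
  have hpos : 0 < Complex.normSq (1 - w) := Complex.normSq_pos.2 hne
  have hns : Complex.normSq (1 - w) ≤ (1 + a) ^ 2 := by
    rw [Complex.normSq_eq_norm_sq]
    have h2 : ‖1 - w‖ ≤ 1 + a := by
      calc ‖1 - w‖ ≤ ‖(1 : ℂ)‖ + ‖w‖ := norm_sub_le _ _
        _ ≤ 1 + a := by simp; exact hw
    have h3 : 0 ≤ ‖1 - w‖ := norm_nonneg _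
    nlinarith
  rw [Complex.inv_re]
  have h4 : (1 - w).re = 1 - w.re := by simp
  rw [h4]
  rw [div_le_div_iff₀ (by positivity) hpos]
  have h5 : (1 - a) * Complex.normSq (1 - w) ≤ (1 - a) * (1 + a) ^ 2 :=
    mul_le_mul_of_nonneg_left hns (by linarith)
  have h6 : (1 - a) * (1 + a) ^ 2 ≤ (1 - w.re) * (1 + a) ^ 2 :=
    mul_le_mul_of_nonneg_right (by linarith) (by positivity)
  linarith

theorem AFX_fix (h : ℂ → ℂ) (d d' : ℝ) (hd0 : 0 < d) (hdd : d' < d)
    (hh : DifferentiableOn ℂ h (ball 0 d)) (hb : ∀ x ∈ ball (0 : ℂ) d, ‖h x‖ ≤ d') :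
    ∃ x₀ ∈ ball (0 : ℂ) d, h x₀ = x₀ := by
  by_contra hcon
  push Not at hcon
  have hd'0 : 0 ≤ d' := (norm_nonneg _).trans (hb 0 (mem_ball_self hd0))
  obtain ⟨r, hrdef⟩ : ∃ r : ℝ, r = (d + d') / 2 := ⟨_, rfl⟩
  have hr0 : 0 < r := by linarith
  have hrd : r < d := by linarith
  have hd'r : d' < r := by linarith
  have hne : ∀ x ∈ ball (0 : ℂ) d, x - h x ≠ 0 :=
    fun x hx h0 => hcon x hx (sub_eq_zero.1 h0).symm
  obtain ⟨E, hEdef⟩ : ∃ E : ℂ → ℂ, E = fun x : ℂ => Complex.exp (-(x / (x - h x))) := ⟨_, rfl⟩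
  have hE : DifferentiableOn ℂ E (ball 0 d) := by
    rw [hEdef]
    apply DifferentiableOn.cexp
    apply DifferentiableOn.neg
    exact differentiableOn_id.div (differentiableOn_id.sub hh) hne
  obtain ⟨a, hadef⟩ : ∃ a : ℝ, a = d' / r := ⟨_, rfl⟩
  have ha0 : 0 ≤ a := by rw [hadef]; positivity
  have ha1 : a < 1 := by rw [hadef, div_lt_one hr0]; exact hd'r
  obtain ⟨δ, hδ⟩ : ∃ δ : ℝ, δ = (1 - a) / (1 + a) ^ 2 := ⟨_, rfl⟩
  have hδ0 : 0 < δ := by
    rw [hδ]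
    have : 0 < 1 - a := by linarith
    positivity
  have key : ‖E 0‖ ≤ Real.exp (-δ) := by
    apply Complex.norm_le_of_forall_mem_frontier_norm_le (U := ball (0 : ℂ) r) isBounded_ball
    · apply DifferentiableOn.diffContOnCl
      rw [closure_ball _ hr0.ne']
      exact hE.mono (closedBall_subset_ball hrd)
    · intro z hz
      rw [frontier_ball _ hr0.ne'] at hz
      have hzr : ‖z‖ = r := by simpa using hz
      have hzb : z ∈ ball (0 : ℂ) d := by
        rw [mem_ball_zero_iff, hzr]; exact hrd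
      have hz0 : z ≠ 0 := by
        intro h0
        rw [h0, norm_zero] at hzr
        linarith
      have hw : ‖h z / z‖ ≤ a := by
        rw [norm_div, hzr, hadef]
        exact div_le_div_of_nonneg_right (hb z hzb) hr0.le
      have heq : z / (z - h z) = (1 - h z / z)⁻¹ := by
        have h1 : 1 - h z / z = (z - h z) / z := by field_simp
        rw [h1, inv_div]
      have hre := AFX_re (h z / z) a ha0 ha1 hw
      rw [← hδ, ← heq] at hre
      have hEz : E z = Complex.exp (-(z / (z - h z))) := by rw [hEdef]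
      rw [hEz, Complex.norm_exp, Complex.neg_re]
      exact Real.exp_le_exp.2 (by linarith)
    · exact subset_closure (mem_ball_self hr0)
  have h1 : ‖E 0‖ = 1 := by simp [hEdef]
  rw [h1] at key
  have h2 : Real.exp (-δ) < Real.exp 0 := Real.exp_lt_exp.2 (by linarith)
  rw [Real.exp_zero] at h2
  linarith

theorem AFX : AFX_stmt := by
  intro h d d' hd0 hdd hh hb
  obtain ⟨x₀, hx₀, hfix⟩ := AFX_fix h d d' hd0 hdd hh hb
  refine ⟨x₀, hx₀, hfix, ?_⟩
  have hd'0 : 0 ≤ d' := (norm_nonneg _).trans (hb 0 (mem_ball_self hd0))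
  obtain ⟨b, hbdef⟩ : ∃ b : ℝ, b = (1 + d' / d) / 2 := ⟨_, rfl⟩
  have ha0 : 0 ≤ d' / d := by positivity
  have ha1 : d' / d < 1 := by rw [div_lt_one hd0]; exact hdd
  have hb0 : 0 < b := by linarith
  have hb1 : b < 1 := by linarith
  have hab : d' / d < b := by linarith
  have hdC : (d : ℂ) ≠ 0 := by exact_mod_cast hd0.ne'
  have hbC : (b : ℂ) ≠ 0 := by exact_mod_cast hb0.ne'
  have hball : ∀ u ∈ UD, (d : ℂ) * u ∈ ball (0 : ℂ) d := by
    intro u hu
    have hu' : ‖u‖ < 1 := by simpa [UD] using hu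
    rw [mem_ball_zero_iff, norm_mul, Complex.norm_real, Real.norm_of_nonneg hd0.le]
    calc d * ‖u‖ < d * 1 := mul_lt_mul_of_pos_left hu' hd0
      _ = d := mul_one d
  -- the normalised map
  obtain ⟨J, hJ⟩ : ∃ J : ℂ → ℂ, J = fun u => h ((d : ℂ) * u) / ((d : ℂ) * b) := ⟨_, rfl⟩
  have hJd : DifferentiableOn ℂ J UD := by
    rw [hJ]
    apply DifferentiableOn.div_const
    apply hh.comp (f := fun u : ℂ => (d : ℂ) * u)
    · exact (differentiable_id.const_mul (d : ℂ)).differentiableOn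
    · intro u hu
      exact hball u hu
  have hJm : MapsTo J UD UD := by
    intro u hu
    have h1 := hb _ (hball u hu)
    have h2 : ‖J u‖ ≤ (d' / d) / b := by
      rw [hJ]
      simp only [norm_div, norm_mul, Complex.norm_real, Real.norm_of_nonneg hd0.le,
        Real.norm_of_nonneg hb0.le]
      rw [div_div]
      exact div_le_div_of_nonneg_right h1 (by positivity)
    have h3 : (d' / d) / b < 1 := by rw [div_lt_one hb0]; exact hab
    have h4 : ‖J u‖ < 1 := lt_of_le_of_lt h2 h3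
    simpa [UD] using h4
  obtain ⟨u₀, hu₀⟩ : ∃ u₀ : ℂ, u₀ = x₀ / d := ⟨_, rfl⟩
  have hdu : (d : ℂ) * u₀ = x₀ := by rw [hu₀]; field_simp
  have hu₀m : u₀ ∈ UD := by
    have h1 : ‖u₀‖ < 1 := by
      rw [hu₀, norm_div, Complex.norm_real, Real.norm_of_nonneg hd0.le, div_lt_one hd0]
      simpa using hx₀
    simpa [UD] using h1
  have hSP := (HY.HDI HY.MOB).2.1 J id u₀ hJd hJm differentiableAt_id hu₀m
  have hid : hd id u₀ = 1 / (1 - ‖u₀‖ ^ 2) := by
    simp [hd]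
  have hJu : J u₀ = u₀ / b := by
    rw [hJ]
    show h ((d : ℂ) * u₀) / ((d : ℂ) * b) = u₀ / b
    rw [hdu, hfix, ← hdu]
    field_simp
  have hder : deriv J u₀ = deriv h x₀ / b := by
    have hhx : DifferentiableAt ℂ h ((d : ℂ) * u₀) := by
      rw [hdu]
      exact (hh x₀ hx₀).differentiableAt (isOpen_ball.mem_nhds hx₀)
    have h1 : HasDerivAt (fun u : ℂ => (d : ℂ) * u) ((d : ℂ) * 1) u₀ :=
      (hasDerivAt_id u₀).const_mul (d : ℂ)
    have h2 : HasDerivAt (fun u : ℂ => h ((d : ℂ) * u)) (deriv h ((d : ℂ) * u₀) * ((d : ℂ) * 1)) u₀ :=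
      HasDerivAt.comp u₀ hhx.hasDerivAt h1
    have h3 := h2.div_const ((d : ℂ) * b)
    rw [hJ]
    rw [h3.deriv, hdu]
    field_simp
  have hSP' : hd J u₀ ≤ 1 / (1 - ‖u₀‖ ^ 2) := by
    rw [← hid]
    exact hSP
  have hu1 : ‖u₀‖ < 1 := by simpa [UD] using hu₀m
  have hJ1 : ‖J u₀‖ < 1 := by simpa [UD] using hJm hu₀m
  have hJn : ‖J u₀‖ = ‖u₀‖ / b := by
    rw [hJu, norm_div, Complex.norm_real, Real.norm_of_nonneg hb0.le]
  have hp1 : 0 < 1 - ‖u₀‖ ^ 2 := by nlinarith [norm_nonneg u₀]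
  have hp2 : 0 < 1 - ‖J u₀‖ ^ 2 := by nlinarith [norm_nonneg (J u₀)]
  have hge : ‖u₀‖ ≤ ‖J u₀‖ := by
    rw [hJn, le_div_iff₀ hb0]
    nlinarith [norm_nonneg u₀]
  have hle : 1 - ‖J u₀‖ ^ 2 ≤ 1 - ‖u₀‖ ^ 2 := by nlinarith [norm_nonneg u₀]
  unfold hd at hSP'
  rw [div_le_div_iff₀ hp2 hp1, one_mul] at hSP'
  have hJle : ‖deriv J u₀‖ ≤ 1 := by
    by_contra hlt
    push Not at hlt
    have : 1 - ‖u₀‖ ^ 2 < ‖deriv J u₀‖ * (1 - ‖u₀‖ ^ 2) := by nlinarith
    linarith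
  rw [hder, norm_div, Complex.norm_real, Real.norm_of_nonneg hb0.le, div_le_iff₀ hb0] at hJle
  linarith

end DH
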